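import Pool.Agent.H87.AN.TargetsC
import Pool.Agent.H80.AN.TargetsA

/-! Row HST of the board allh (MP_2697e3_an): one step of the absorption, beta numbers. -/

namespace Pool.Agent.H55.AN

open MeasureTheory Metric Set Filter Topology Pool.Agent.H87.SN Pool.Agent.H87.SH Pool.Agent.H87.AX
open Pool.Agent.H22.AN
open scoped ContDiff RealInnerProductSpace ENNReal

noncomputable section

lemma sj_pos (j : ℕ) : 0 < sj j := by unfold sj; positivity

lemma sj_anti {i j : ℕ} (h : i ≤ j) : sj j ≤ sj i := by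
  unfold sj
  exact pow_le_pow_of_le_one (by norm_num) (by norm_num) h

lemma meas_th {d m : ℕ} (hMUF : T_MUF) (G : V d → V d →L[ℝ] E m)
    (hG : MemLp G 2 (volume.restrict (ball (0 : V d) 2))) (e r ρ : ℝ) :
    MeasurableSet {x : V d | x ∈ ball 0 ρ ∧ e ≤ th G x r} := by
  have h := (hMUF d m G hG).2.2.2.2.2 r
  have h1 : Continuous (fun x : V d => th G x r) := by
    unfold th
    exact h.div_const _
  exact measurableSet_ball.inter (isClosed_le continuous_const h1).measurableSet

lemma kw_split {d m : ℕ} (hBTM : T_BTM) (G : V d → V d →L[ℝ] E m)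
    (hG : MemLp G 2 (volume.restrict (ball (0 : V d) 2))) (e c : ℝ) (i : ℕ) :
    Kw G e (fun z => ENNReal.ofReal (3 / 2 - ‖z‖) + ENNReal.ofReal c) i =
      Hj G e i + ENNReal.ofReal c * Kw G e (fun _ => 1) i := by
  have hm : Measurable (fun x => bs G x (sj i)) := (hBTM d m G hG (sj i) (sj_pos i)).2
  unfold Hj Kw
  have h1 : ∀ x : V d, (ENNReal.ofReal (3 / 2 - ‖x‖) + ENNReal.ofReal c) * bs G x (sj i) =
      ENNReal.ofReal (3 / 2 - ‖x‖) * bs G x (sj i) + ENNReal.ofReal c * (1 * bs G x (sj i)) := by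
    intro x; rw [add_mul, one_mul]
  simp_rw [h1]
  have hw : Measurable (fun x : V d => ENNReal.ofReal (3 / 2 - ‖x‖)) :=
    (measurable_const.sub measurable_norm).ennreal_ofReal
  have hadd := lintegral_add_left (μ := volume.restrict
    {x : V d | x ∈ ball 0 (7 / 4) ∧ e ≤ th G x (sj i)})
    (f := fun x : V d => ENNReal.ofReal (3 / 2 - ‖x‖) * bs G x (sj i)) (hw.mul hm)
    (fun x => ENNReal.ofReal c * (1 * bs G x (sj i)))
  have hmul := lintegral_const_mul (μ := volume.restrict
    {x : V d | x ∈ ball 0 (7 / 4) ∧ e ≤ th G x (sj i)}) (ENNReal.ofReal c)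
    (f := fun x : V d => 1 * bs G x (sj i)) (measurable_const.mul hm)
  rw [hadd, hmul, mul_add]
  congr 1
  rw [← mul_assoc, ← mul_assoc, mul_comm (ENNReal.ofReal c)]

theorem pf_HST (hABS : T_ABS) (hHTR : T_HTR) (hBTF : T_BTF) (hBTM : T_BTM) (hMUF : T_MUF) :
    T_HST := by
  intro d Λ e hd he
  obtain ⟨C0, hC0, hA⟩ := hABS d Λ e e hd he he
  obtain ⟨C1, hC1, hT⟩ := hHTR d Λ e hd he
  set F : ℝ := 3 / 2 * Real.sqrt (8 ^ (d + 2) * Λ) with hF
  have hF0 : 0 ≤ F := by positivity
  refine ⟨C0 * F + C0 + 3 * C0 * C1, by positivity, ?_⟩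
  intro m G hG er e₀ η ν a b r K hee hη ha hr hRec j hj
  set t : ℝ := sj (j + a + r) with ht
  have htp : 0 < t := sj_pos _
  have htl : t ≤ 1 / 65536 := by
    have : t ≤ sj 16 := sj_anti (by omega)
    refine this.trans (le_of_eq ?_)
    unfold sj; norm_num
  set S : Set (V d) := {x : V d | x ∈ ball 0 (3 / 2) ∧ e ≤ th G x t} with hS
  have hSm : MeasurableSet S := meas_th hMUF G hG.memG e t _
  have hfm : Measurable (fun x => bs G x t) := (hBTM d m G hG.memG t htp).2
  have hwl : Measurable (fun x : V d => ENNReal.ofReal (3 / 2 - ‖x‖)) :=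
    (measurable_const.sub measurable_norm).ennreal_ofReal
  have hjl : sj j ≤ 1 / 16 := by
    have : sj j ≤ sj 4 := sj_anti hj
    refine this.trans (le_of_eq ?_)
    unfold sj; norm_num
  have key := hA m G hG a b r K j ν η F ha hr hj hη hF0 (fun x => bs G x t)
    (fun y => ENNReal.ofReal (3 / 2 - ‖y‖))
    (fun z => ENNReal.ofReal (3 / 2 - ‖z‖) + ENNReal.ofReal (sj j)) S hfm hwl
    (hwl.add measurable_const) hSm (fun x hx => hx.1) (fun x hx => hx.2) ?_ ?_ ?_
  · -- conclusion
    have hLeft : Hj G e (j + a + r) ≤ ENNReal.ofReal ((sj (j + a + r) ^ 2)⁻¹) *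
        ∫⁻ y in S, ENNReal.ofReal (3 / 2 - ‖y‖) * bs G y t := by
      unfold Hj Kw
      rw [← ht]
      refine mul_le_mul_right ?_ _
      rw [← lintegral_indicator (meas_th hMUF G hG.memG e t _), ← lintegral_indicator hSm]
      refine lintegral_mono fun x => ?_
      by_cases hx : x ∈ ball (0 : V d) (3 / 2)
      · by_cases hx2 : e ≤ th G x t
        · rw [indicator_of_mem (show x ∈ S from ⟨hx, hx2⟩)]
          exact indicator_le_self _ _ x
        · rw [indicator_of_notMem (fun h => hx2 h.2)]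
          exact zero_le
      · have h0 : ENNReal.ofReal (3 / 2 - ‖x‖) = 0 := by
          rw [ENNReal.ofReal_eq_zero]
          rw [mem_ball_zero_iff, not_lt] at hx
          linarith
        by_cases hx3 : x ∈ {x : V d | x ∈ ball 0 (7 / 4) ∧ e ≤ th G x t}
        · rw [indicator_of_mem hx3]
          beta_reduce
          rw [h0, zero_mul]
          exact zero_le
        · rw [indicator_of_notMem hx3]
          exact zero_le
    refine hLeft.trans (key.trans ?_)
    rw [kw_split hBTM G hG.memG, kw_split hBTM G hG.memG, kw_split hBTM G hG.memG]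
    have e1 : ENNReal.ofReal (C0 * F * 4 ^ r) * bad G K ν j ≤
        ENNReal.ofReal ((C0 * F + C0 + 3 * C0 * C1) * 4 ^ r) * bad G K ν j := by
      refine mul_le_mul_left (ENNReal.ofReal_le_ofReal ?_) _
      refine mul_le_mul_of_nonneg_right ?_ (by positivity)
      have : 0 ≤ 3 * C0 * C1 := by positivity
      linarith
    have e2 : ENNReal.ofReal (C0 * η) * (Hj G e (j + b + r) +
        ENNReal.ofReal (sj j) * Kw G e (fun _ => 1) (j + b + r) +
        (Hj G e (j + r) + ENNReal.ofReal (sj j) * Kw G e (fun _ => 1) (j + r)) +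
        (Hj G e (j + 3) + ENNReal.ofReal (sj j) * Kw G e (fun _ => 1) (j + 3))) ≤
        ENNReal.ofReal (C0 * η) * (Hj G e (j + b + r) + Hj G e (j + r) + Hj G e (j + 3)) +
        ENNReal.ofReal (C0 * η) * (ENNReal.ofReal (sj j) * ENNReal.ofReal C1 +
          ENNReal.ofReal (sj j) * ENNReal.ofReal C1 + ENNReal.ofReal (sj j) * ENNReal.ofReal C1) := by
      rw [← mul_add]
      refine mul_le_mul_right ?_ _
      have q1 := (hT m G hG (j + b + r) (by omega)).1
      have q2 := (hT m G hG (j + r) (by omega)).1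
      have q3 := (hT m G hG (j + 3) (by omega)).1
      calc _ ≤ Hj G e (j + b + r) + ENNReal.ofReal (sj j) * ENNReal.ofReal C1 +
            (Hj G e (j + r) + ENNReal.ofReal (sj j) * ENNReal.ofReal C1) +
            (Hj G e (j + 3) + ENNReal.ofReal (sj j) * ENNReal.ofReal C1) := by gcongr
        _ = _ := by ring
    have hCC : 0 ≤ C0 * F := by positivity
    have hCC2 : 0 ≤ C0 * C1 := by positivity
    have e3 : ENNReal.ofReal (C0 * η) * (Hj G e (j + b + r) + Hj G e (j + r) + Hj G e (j + 3)) ≤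
        ENNReal.ofReal ((C0 * F + C0 + 3 * C0 * C1) * η) *
          (Hj G e (j + b + r) + Hj G e (j + r) + Hj G e (j + 3)) := by
      refine mul_le_mul_left (ENNReal.ofReal_le_ofReal ?_) _
      refine mul_le_mul_of_nonneg_right ?_ hη
      nlinarith
    have e4 : ENNReal.ofReal (C0 * η) * (ENNReal.ofReal (sj j) * ENNReal.ofReal C1 +
          ENNReal.ofReal (sj j) * ENNReal.ofReal C1 + ENNReal.ofReal (sj j) * ENNReal.ofReal C1) ≤
        ENNReal.ofReal ((C0 * F + C0 + 3 * C0 * C1) * η * (1 / 2) ^ j) := by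
      have hs : 0 ≤ sj j := (sj_pos j).le
      rw [← ENNReal.ofReal_mul hs, ← ENNReal.ofReal_add (by positivity) (by positivity),
        ← ENNReal.ofReal_add (by positivity) (by positivity), ← ENNReal.ofReal_mul (by positivity)]
      refine ENNReal.ofReal_le_ofReal ?_
      have : (1 / 2 : ℝ) ^ j = sj j := rfl
      rw [this]
      have h1 : C0 * η * (sj j * C1 + sj j * C1 + sj j * C1) = (3 * C0 * C1) * η * sj j := by ring
      rw [h1]
      refine mul_le_mul_of_nonneg_right (mul_le_mul_of_nonneg_right ?_ hη) hs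
      linarith
    calc _ ≤ ENNReal.ofReal ((C0 * F + C0 + 3 * C0 * C1) * 4 ^ r) * bad G K ν j +
          (ENNReal.ofReal (C0 * η) * (Hj G e (j + b + r) + Hj G e (j + r) + Hj G e (j + 3)) +
        ENNReal.ofReal (C0 * η) * (ENNReal.ofReal (sj j) * ENNReal.ofReal C1 +
          ENNReal.ofReal (sj j) * ENNReal.ofReal C1 +
          ENNReal.ofReal (sj j) * ENNReal.ofReal C1)) := add_le_add e1 e2
      _ ≤ ENNReal.ofReal ((C0 * F + C0 + 3 * C0 * C1) * 4 ^ r) * bad G K ν j +
          (ENNReal.ofReal ((C0 * F + C0 + 3 * C0 * C1) * η) *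
          (Hj G e (j + b + r) + Hj G e (j + r) + Hj G e (j + 3)) +
          ENNReal.ofReal ((C0 * F + C0 + 3 * C0 * C1) * η * (1 / 2) ^ j)) :=
            add_le_add le_rfl (add_le_add e3 e4)
      _ = _ := (add_assoc _ _ _).symm
  · -- bound F
    intro y hy
    have hb : ball y (8 * t) ⊆ ball (0 : V d) 2 := by
      refine ball_subset_ball' ?_
      have := mem_ball.1 hy.1
      linarith
    have h1 : bt G y t ≤ ENNReal.ofReal (8 ^ (d + 2) * Λ) :=
      (hBTF d).2.2.2.1 m G Λ hG y t htp hb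
    have h2 : bs G y t ≤ ENNReal.ofReal (Real.sqrt (8 ^ (d + 2) * Λ)) := by
      unfold bs
      have hΛ : 0 ≤ 8 ^ (d + 2) * Λ ∨ 8 ^ (d + 2) * Λ < 0 := le_or_gt _ _
      calc bt G y t ^ (1 / 2 : ℝ) ≤ ENNReal.ofReal (8 ^ (d + 2) * Λ) ^ (1 / 2 : ℝ) :=
            ENNReal.rpow_le_rpow h1 (by norm_num)
        _ ≤ _ := by
          rcases hΛ with h | h
          · rw [Real.sqrt_eq_rpow, ENNReal.ofReal_rpow_of_nonneg h (by norm_num)]
          · rw [ENNReal.ofReal_of_nonpos h.le, ENNReal.zero_rpow_of_pos (by norm_num)]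
            exact zero_le
    calc ENNReal.ofReal (3 / 2 - ‖y‖) * bs G y t ≤
        ENNReal.ofReal (3 / 2) * ENNReal.ofReal (Real.sqrt (8 ^ (d + 2) * Λ)) := by
          gcongr
          linarith [norm_nonneg y]
      _ = ENNReal.ofReal F := by rw [← ENNReal.ofReal_mul (by norm_num)]
  · -- weights
    intro y hy z hyz
    have h1 : ‖z‖ ≤ ‖y‖ + dist y z := by
      rw [dist_eq_norm]
      calc ‖z‖ = ‖y - (y - z)‖ := by congr 1; abel
        _ ≤ _ := norm_sub_le _ _
    have hs := sj_pos j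
    calc ENNReal.ofReal (3 / 2 - ‖y‖) ≤ ENNReal.ofReal ((3 / 2 - ‖z‖) + sj j) :=
          ENNReal.ofReal_le_ofReal (by linarith)
      _ ≤ _ := ENNReal.ofReal_add_le
  · -- recursion
    intro x hx hW
    have hb : ball x (4 * sj j) ⊆ ball (0 : V d) 2 := by
      refine ball_subset_ball' ?_
      have := mem_ball.1 hx
      linarith
    refine le_trans ?_ (hRec x j hb hW).1
    refine mul_le_mul_right (lintegral_mono_set ?_) _
    intro y hy
    exact ⟨hy.2, hee.trans hy.1.2⟩

end

end Pool.Agent.H55.AN
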